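import Pool.Agent.N422.LG.ALL3

/-!
# The density of rough numbers in intervals of length `(log Q)^A` under all nonnegative weights of level `Q`

Author: helper422.  Maier showed that intervals of length `(log x)^A` can contain a proportion of primes different from the
expected one by a factor `1 ± exp(-(1+o(1)) A log A)`, for every `A`.  His matrix method chooses `n` in a residue class modulo
a number `q`, `log q ≍ log x`; one can also use other nonnegative weights `w` of level `Q` (sums of functions of `n mod d`,
`d ≤ Q`), such as the squares of Selberg, Goldston-Pintz-Yıldırım and Maynard-Tao.  How large irregularities can be produced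
by such weights?

Here we prove that there are no others than exponentially small ones: for EVERY nonnegative `w` of level `Q` and
`U ≥ (log Q)^(C(b+1))` the mean with respect to `w` of the number of `h ≤ U` for which `n + h` has no prime factor `≤ Q` is
`(1 ± 2^(-b)) U ∏_{p ≤ Q} (1 - 1/p)`, with an absolute constant `C`.  For `n + h ≤ Q^2` (or with the parity problem removed)
these are the primes; `2^(-b) = exp(-c A)` for `U = (log Q)^A`.  For the indicator function `w` of a residue class modulo
`q ≤ Q` this is the fundamental lemma of the sieve.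

Proof.  For the primes `p ≤ y = (log Q)^4` the fundamental lemma holds for every `n` (`LG/FUND`, helper545).  The
primes in `(y, Q]` are treated in windows `(z, z']` with `∑ 1/p ≍ δ`; fix the class of `n` modulo the product of the primes
`≤ z`, which fixes the set `S` of the numbers `h ≤ U` which remain.  Lower bound: the number of pairs `(p, h)`, `h ∈ S`, `p` in
the window, `p ∣ n + h`, is a sum over `j ≤ U/z + 1` of functions `1_{n mod p ∈ Ω_j(p)}`; an inequality for all nonnegative
functions of level `Q` on the product space `∏_p ℤ/p` (`WS`: kernels `K_ζ` which move the places, analytic in `ζ`, nonnegative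
on the circle, the identity at `ζ = e^(-t)`, and the inequality of Jensen) bounds its mean by `(1 + 2δ)(∑ 1/p) |S|` plus
`O((U/z + 1) (log Q/log z)/δ)` (`LG/MOD3`, helper919, `LG/ARG`, helper286, `LG/HIT`, helper692, `LG/REC`, helper289).
Upper bound: cut `[1, U]` into intervals of length `z`; every `p` in the window divides at most one `n + h` in each of them,
and the kernels of `NW` (which move a place to one of the numbers not yet hit) show that new numbers `h` are hit often enough
(`LG/UB`, helper137, `LG/ARDG`, helper592, `LG/HITU`, helper602, `LG/RECU`, helper681).  The errors add up to a small part of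
`U / log Q` (`LG/FIN`, helper81, `LG/FINU`, helper628).
-/

set_option autoImplicit false

open Finset

namespace Pool.Agent.Results.MP_31d0eb_nt.DensityUnderAllWeights

/-- the weight `w(n) = ∑_{d ≤ Q} c_d(n mod d)`, an arbitrary real weight of level `Q` -/
noncomputable def weight (Q : ℕ) (c : ℕ → ℕ → ℝ) (n : ℕ) : ℝ := ∑ d ∈ Icc 1 Q, c d (n % d)

/-- the mean value of `F` over the period `Q!` -/
noncomputable def mean (Q : ℕ) (F : ℕ → ℝ) : ℝ := (∑ n ∈ range Q.factorial, F n) / (Q.factorial : ℝ)

/-- the number of the `h`, `1 ≤ h ≤ U`, for which `n + h` has no prime factor `p ≤ Q` -/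
def rough (Q U n : ℕ) : ℕ := ((Icc 1 U).filter (fun h => ∀ p ∈ (Icc 1 Q).filter Nat.Prime, ¬ p ∣ n + h)).card

/-- the density `∏_{p ≤ Q} (1 - 1/p)` -/
noncomputable def density (Q : ℕ) : ℝ := ∏ p ∈ (Icc 1 Q).filter Nat.Prime, (1 - 1 / (p : ℝ))

/-- There is an absolute constant `C` such that for every `b`, all `Q ≥ Q₀(b)`, all `U ≥ (log Q)^(C(b+1))` and every
nonnegative weight `w` of level `Q`, the mean of `w(n) #{h ≤ U : n + h free of the primes ≤ Q}` lies between
`(1 - 2^(-b))` and `(1 + 2^(-b))` times `U ∏_{p ≤ Q} (1 - 1/p)` times the mean of `w`. -/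
theorem result : ∃ C : ℕ, ∀ b : ℕ, ∃ Q₀ : ℕ, ∀ Q : ℕ, Q₀ ≤ Q → ∀ U : ℕ, Real.log Q ^ (C * (b + 1)) ≤ U →
    ∀ c : ℕ → ℕ → ℝ, (∀ n, 0 ≤ weight Q c n) →
    (1 - (1 / 2 : ℝ) ^ b) * (U * density Q) * mean Q (weight Q c) ≤
        mean Q (fun n => weight Q c n * (rough Q U n : ℝ)) ∧
      mean Q (fun n => weight Q c n * (rough Q U n : ℝ)) ≤
        (1 + (1 / 2 : ℝ) ^ b) * (U * density Q) * mean Q (weight Q c) := by
  obtain ⟨C1, hC1, h1⟩ := Pool.Agent.N422.LG.law_lower
  obtain ⟨C2, hC2, h2⟩ := Pool.Agent.N422.LG.law_upper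
  refine ⟨max C1 C2, fun b => ?_⟩
  obtain ⟨Q1, h1⟩ := h1 b
  obtain ⟨Q2, h2⟩ := h2 b
  refine ⟨max (max Q1 Q2) 3, fun Q hQ U hU c hc => ?_⟩
  have hQ1 : Q1 ≤ Q := ((le_max_left _ _).trans (le_max_left _ _)).trans hQ
  have hQ2 : Q2 ≤ Q := ((le_max_right _ _).trans (le_max_left _ _)).trans hQ
  have hQ3 : 3 ≤ Q := (le_max_right _ _).trans hQ
  have hlog : 1 ≤ Real.log Q := by
    rw [Real.le_log_iff_exp_le (by positivity)]
    have h3 : (3 : ℝ) ≤ Q := by exact_mod_cast hQ3
    linarith [Real.exp_one_lt_d9]
  have hU1 : Real.log Q ^ (C1 * (b + 1)) ≤ U :=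
    (pow_le_pow_right₀ hlog (Nat.mul_le_mul_right _ (le_max_left _ _))).trans hU
  have hU2 : Real.log Q ^ (C2 * (b + 1)) ≤ U :=
    (pow_le_pow_right₀ hlog (Nat.mul_le_mul_right _ (le_max_right _ _))).trans hU
  exact ⟨h1 Q hQ1 U hU1 c hc, h2 Q hQ2 U hU2 c hc⟩

end Pool.Agent.Results.MP_31d0eb_nt.DensityUnderAllWeights
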