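import Pool.Agent.TH977.PW.Inst

set_option autoImplicit false

/-!
# Regular points of arbitrary sets of primes in intervals of length `X ^ θ`

Let `θ > 0` be arbitrarily small and let `A` be an ARBITRARY set of primes, or more generally of
integers `n` without prime factors below `n ^ (1 / r)`. In every interval `(X, X + Y]`,
`X ^ θ ≤ Y ≤ X / 2`, all but `ε Y / log X` of the elements of `A` are regular points of `A`: the
elements of `A` in ALL intervals of length between `(log X) / c` and `Y` around them have the right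
order (counted up to `Y` on both sides), and constant density up to `δ` at all but `B (ε, δ)` dyadic
scales.
-/

namespace Pool.Agent.Results.MP_31d0eb_nt.RegularPoints

open Finset Filter

open Classical in
/-- the number of elements of `A` in `(a, b]` -/
noncomputable def count (A : Set ℕ) (a b : ℕ) : ℕ := ((Finset.Ioc a b).filter (fun m => m ∈ A)).card

/-- All intervals `(m - s, m + t]` with `s, t ≤ Y` of length at least `log X / c` contain the right
order of elements of `A`. -/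
def RightOrder (A : Set ℕ) (c : ℝ) (X Y m : ℕ) : Prop :=
  ∀ s t : ℕ, s ≤ Y → t ≤ Y → Real.log X ≤ c * (s + t) →
    c * (s + t) / Real.log X ≤ count A (m - s) (m + t) ∧
      (count A (m - s) (m + t) : ℝ) ≤ (s + t) / (c * Real.log X)

/-- Up to `δ`, `A` has a constant density on both sides of `m` up to the distance `2 ^ j`. -/
def ConstantDensity (A : Set ℕ) (c δ : ℝ) (X m j : ℕ) : Prop :=
  ∃ lam : ℝ, c ≤ lam ∧ lam ≤ 1 / c ∧ ∀ s t : ℕ, s ≤ 2 ^ j → t ≤ 2 ^ j →
    |(count A (m - s) (m + t) : ℝ) - lam * (s + t) / Real.log X| ≤ δ * 2 ^ j / Real.log X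

open Classical in
/-- the number of the scales `log X ≤ 2 ^ j ≤ Y` without this property -/
noncomputable def badScales (A : Set ℕ) (c δ : ℝ) (X Y m : ℕ) : ℕ :=
  ((Finset.range (Nat.log 2 Y + 1)).filter (fun j => Real.log X ≤ (2 : ℝ) ^ j ∧
    ¬ ConstantDensity A c δ X m j)).card

/-- The elements of `A` that are not regular points of `A`. -/
def Irregular (A : Set ℕ) (c δ : ℝ) (B X Y : ℕ) : Set ℕ :=
  {m | m ∈ A ∧ ¬ (RightOrder A c X Y m ∧ badScales A c δ X Y m ≤ B)}

theorem count_eq (A : Set ℕ) (a b : ℕ) : Pool.Agent.TH977.PW.N A a b = count A a b := rfl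

theorem right_iff (A : Set ℕ) (c : ℝ) (X Y m : ℕ) :
    Pool.Agent.TH977.PW.RightOrder A 1 c X Y m ↔ RightOrder A c X Y m := by
  unfold Pool.Agent.TH977.PW.RightOrder RightOrder
  simp only [pow_one, count_eq]

theorem density_iff (A : Set ℕ) (c δ : ℝ) (X m j : ℕ) :
    Pool.Agent.TH977.PW.ConstantDensity A 1 c δ X m j ↔ ConstantDensity A c δ X m j := by
  unfold Pool.Agent.TH977.PW.ConstantDensity ConstantDensity
  simp only [pow_one, count_eq]

open Classical in
theorem badScales_eq (A : Set ℕ) (c δ : ℝ) (X Y m : ℕ) :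
    Pool.Agent.TH977.PW.badScales A 1 c δ X Y m = badScales A c δ X Y m := by
  unfold Pool.Agent.TH977.PW.badScales badScales
  apply congrArg
  apply Finset.filter_congr
  intro j _
  rw [pow_one, density_iff]

theorem irregular_eq (A : Set ℕ) (c δ : ℝ) (B X Y : ℕ) :
    Pool.Agent.TH977.PW.Irregular A 1 c δ B X Y = Irregular A c δ B X Y := by
  unfold Pool.Agent.TH977.PW.Irregular Irregular
  ext m
  rw [Set.mem_ofPred_eq, Set.mem_ofPred_eq, right_iff, badScales_eq]

/-- **Regular points of arbitrary sets of primes in intervals of length `X ^ θ`.** -/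
theorem result (θ : ℝ) (hθ : 0 < θ) (hθ1 : θ ≤ 1) (r : ℕ) (hr : 1 ≤ r) (ε : ℝ) (hε : 0 < ε) :
    ∃ c : ℝ, 0 < c ∧ ∀ δ : ℝ, 0 < δ → ∃ B : ℕ, ∀ᶠ X : ℕ in atTop, ∀ Y : ℕ,
      (X : ℝ) ^ θ ≤ Y → 2 * Y ≤ X → ∀ A : Set ℕ,
      (∀ n ∈ A, ∀ p : ℕ, p.Prime → p ∣ n → (n : ℝ) ^ (1 / (r : ℝ)) ≤ p) →
        (count (Irregular A c δ B X Y) X (X + Y) : ℝ) ≤ ε * Y / Real.log X := by
  obtain ⟨r0, hr0, h⟩ := Pool.Agent.TH977.PW.final_lin (fun _ : Fin 1 => 1) (fun _ => 0)
    (fun _ => one_pos) (fun _ => by norm_num [isCoprime_one_left])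
    (fun _ _ _ _ => Subsingleton.elim _ _)
    (fun p hp => ⟨1, fun _ hd => by
      have h1 : (p : ℤ) ∣ ((1 : ℕ) : ℤ) := by simpa using hd
      exact hp.one_lt.ne' (Nat.dvd_one.1 (Int.natCast_dvd_natCast.1 h1))⟩)
    (fun r => {n | ∀ p : ℕ, p.Prime → p ∣ n → (n : ℝ) ^ (1 / (r : ℝ)) < p})
    (fun _ => Set.univ) 1 (by rw [Fintype.card_fin])
    (fun r m _ hm _ p hp hd => hm p hp (by
      have h1 : (p : ℤ) ∣ ((m : ℕ) : ℤ) := by simpa using hd
      exact Int.natCast_dvd_natCast.1 h1))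
    (fun r m _ _ _ => Set.mem_univ _) θ hθ hθ1
  obtain ⟨c, hc, h1⟩ := (h (max r0 (r + 1)) (le_max_left _ _)).2 ε hε
  refine ⟨c, hc, fun δ hδ => ?_⟩
  obtain ⟨B, h2⟩ := h1 δ hδ
  refine ⟨B, ?_⟩
  filter_upwards [h2] with X hX Y hY1 hY2 A hA
  have h3 := hX Y hY1 hY2 A (fun n hn p hp hd => ?_)
  · rw [irregular_eq, count_eq, pow_one] at h3
    exact h3
  · have h4 := hA n hn p hp hd
    have hr1 : (1 : ℝ) ≤ r := by exact_mod_cast hr
    have hlt : 1 / (((max r0 (r + 1) : ℕ)) : ℝ) < 1 / (r : ℝ) := by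
      apply one_div_lt_one_div_of_lt (by linarith)
      have : r < max r0 (r + 1) := lt_of_lt_of_le (Nat.lt_succ_self r) (le_max_right _ _)
      exact_mod_cast this
    rcases Nat.lt_or_ge n 2 with hn2 | hn2
    · have h5 : (n : ℝ) ^ (1 / (((max r0 (r + 1) : ℕ)) : ℝ)) ≤ 1 := by
        apply Real.rpow_le_one (by positivity) _ (by positivity)
        exact_mod_cast (by omega : n ≤ 1)
      have h6 : (1 : ℝ) < p := by exact_mod_cast hp.one_lt
      linarith
    · have h7 : (1 : ℝ) < n := by exact_mod_cast (by omega : 1 < n)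
      exact (Real.rpow_lt_rpow_of_exponent_lt h7 hlt).trans_le h4

end Pool.Agent.Results.MP_31d0eb_nt.RegularPoints
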