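import Mathlib
import Pool.Agent.N740.HK.Lim

/-!
# The question in all sequential random models of the primes

The integers are decided one after the other and the conditional probability of choosing `n + 1`,
given the decisions up to `n`, is asymptotic to `1 / log n`, almost surely.  Nothing else is assumed:
no independence and no rate of convergence.  The independent model of Cramér and the random sieve of
Hawkins are examples.  In every such model the question has the answer yes, in the sharp range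
`H / log² x → ∞`; and at `H = λ log² x` the exact extreme values of the number of chosen integers in
`(x, x + H]` are determined.
-/

set_option autoImplicit false

open MeasureTheory Filter Set
open scoped Topology

namespace Pool.Agent.Results.MP_31d0eb_nt.SequentialModels

variable {Ω : Type}

/-- `A n` is the event that `n` is chosen.  The events are adapted to the filtration `ℱ` and the
conditional probability of `A (n + 1)` given `ℱ n`, times `log n`, tends to `1` almost surely. -/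
def SequentialModel [m : MeasurableSpace Ω] (μ : Measure Ω) (ℱ : Filtration ℕ m) (A : ℕ → Set Ω) : Prop :=
  (∀ n, MeasurableSet[ℱ n] (A n)) ∧
  ∀ᵐ ω ∂μ, Tendsto (fun n : ℕ => (μ[(A (n + 1)).indicator (fun _ => (1 : ℝ)) | ℱ n]) ω * Real.log n) atTop (𝓝 1)

open Classical in
/-- The random sieve of Hawkins: `2` is chosen, and given the decisions up to `n ≥ 2` the number
`n + 1` is chosen with probability `∏ (1 - 1 / h)`, the product over the chosen `2 ≤ h ≤ n`. -/
def HawkinsSieve [m : MeasurableSpace Ω] (μ : Measure Ω) (ℱ : Filtration ℕ m) (A : ℕ → Set Ω) : Prop :=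
  (∀ n, MeasurableSet[ℱ n] (A n)) ∧ A 2 = univ ∧
  ∀ n, 2 ≤ n → μ[(A (n + 1)).indicator (fun _ => (1 : ℝ)) | ℱ n] =ᵐ[μ]
    fun ω => ∏ h ∈ Finset.Icc 2 n, if ω ∈ A h then 1 - 1 / (h : ℝ) else 1

/-- the number of chosen integers in `(x, x + H]` -/
noncomputable def num (A : ℕ → Set Ω) (ω : Ω) (x H : ℕ) : ℕ := {n : ℕ | x < n ∧ n ≤ x + H ∧ ω ∈ A n}.ncard

open Pool.Agent.N740.HK Pool.Agent.R528.RM

lemma num_eq (A : ℕ → Set Ω) (ω : Ω) (x H : ℕ) : num A ω x H = cnt A x H ω := by
  classical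
  unfold num cnt
  rw [Finset.sum_boole, Nat.cast_id]
  have e : {n : ℕ | x < n ∧ n ≤ x + H ∧ ω ∈ A n} =
      (((Finset.range H).filter fun r => ω ∈ A (x + 1 + r)).image (fun r => x + 1 + r) : Finset ℕ) := by
    ext n
    simp only [mem_ofPred_eq, Finset.coe_image, Finset.coe_filter, Finset.mem_range, mem_image]
    constructor
    · rintro ⟨h1, h2, h3⟩
      refine ⟨n - (x + 1), ⟨by omega, ?_⟩, by omega⟩
      rw [show x + 1 + (n - (x + 1)) = n by omega]
      exact h3
    · rintro ⟨r, ⟨h1, h2⟩, rfl⟩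
      exact ⟨by omega, by omega, h2⟩
  rw [e, ncard_coe_finset, Finset.card_image_of_injective _ (fun a b h => by simpa using h)]

lemma prod_inv (A : ℕ → Set Ω) (n : ℕ) (ω : Ω) [DecidablePred fun h => ω ∈ A h] :
    (∏ h ∈ Finset.Icc 2 n, if ω ∈ A h then 1 - 1 / (h : ℝ) else 1) = (Y A n ω)⁻¹ := by
  unfold Y
  rw [← Finset.prod_inv_distrib]
  refine Finset.prod_congr rfl fun h hh => ?_
  have h2 : (2 : ℝ) ≤ h := by exact_mod_cast (Finset.mem_Icc.1 hh).1
  by_cases hA : ω ∈ A h
  · rw [if_pos hA, if_pos hA, inv_div]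
    field_simp
  · rw [if_neg hA, if_neg hA, inv_one]

end Pool.Agent.Results.MP_31d0eb_nt.SequentialModels

open Pool.Agent.Results.MP_31d0eb_nt.SequentialModels

/-- Hawkins' sieve is a sequential model; and in every sequential model:
(1) almost surely, for all `ε, δ > 0`, for all large `x` and all `x ^ ε ≤ H ≤ x`, the number of chosen
integers in `(x, x + H]` is within a factor `1 ± δ` of `H / log x`;
(2) almost surely the number is asymptotic to `H x / log x` for every function `H x ≤ x` with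
`H x / log² x → ∞`;
(3) for every `δ > 0` there is a constant `K`, not random, such that almost surely the number is
within a factor `1 ± δ` of `H / log x` for all large `x` and all `K log² x ≤ H ≤ x`;
(4) for `s > 1` and `λ = 1 / (s log s - s + 1)`, the limsup of the number for `H = ⌊λ log² x⌋`,
divided by `λ log x`, is almost surely equal to `s`;
(5) for `0 < s < 1` and `λ = 1 / (s log s - s + 1)` the liminf is almost surely equal to `s`;
(6) for `0 < λ ≤ 1` the liminf is almost surely equal to `0`. -/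
theorem Pool.Agent.Results.MP_31d0eb_nt.SequentialModels.result
    {Ω : Type} [m : MeasurableSpace Ω] (μ : Measure Ω) [IsProbabilityMeasure μ]
    (ℱ : Filtration ℕ m) (A : ℕ → Set Ω) :
    (HawkinsSieve μ ℱ A → SequentialModel μ ℱ A) ∧
    (SequentialModel μ ℱ A →
      (∀ᵐ ω ∂μ, ∀ ε δ : ℝ, 0 < ε → 0 < δ → ∀ᶠ x : ℕ in atTop, ∀ H : ℕ, (x : ℝ) ^ ε ≤ H → H ≤ x →
        |(num A ω x H : ℝ) * Real.log x / H - 1| ≤ δ) ∧
      (∀ᵐ ω ∂μ, ∀ H : ℕ → ℕ, (∀ᶠ x in atTop, H x ≤ x) →
        Tendsto (fun x : ℕ => (H x : ℝ) / Real.log x ^ 2) atTop atTop →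
        Tendsto (fun x : ℕ => (num A ω x (H x) : ℝ) * Real.log x / H x) atTop (𝓝 1)) ∧
      (∀ δ : ℝ, 0 < δ → ∃ K : ℝ, 0 < K ∧ ∀ᵐ ω ∂μ, ∀ᶠ x : ℕ in atTop, ∀ H : ℕ,
        K * Real.log x ^ 2 ≤ H → H ≤ x → |(num A ω x H : ℝ) * Real.log x / H - 1| ≤ δ) ∧
      (∀ s lam : ℝ, 1 < s → lam * (s * Real.log s - s + 1) = 1 → ∀ᵐ ω ∂μ,
        limsup (fun x : ℕ => (num A ω x ⌊lam * Real.log x ^ 2⌋₊ : ℝ) / (lam * Real.log x)) atTop = s) ∧
      (∀ s lam : ℝ, 0 < s → s < 1 → lam * (s * Real.log s - s + 1) = 1 → ∀ᵐ ω ∂μ,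
        liminf (fun x : ℕ => (num A ω x ⌊lam * Real.log x ^ 2⌋₊ : ℝ) / (lam * Real.log x)) atTop = s) ∧
      (∀ lam : ℝ, 0 < lam → lam ≤ 1 → ∀ᵐ ω ∂μ,
        liminf (fun x : ℕ => (num A ω x ⌊lam * Real.log x ^ 2⌋₊ : ℝ) / (lam * Real.log x)) atTop = 0)) := by
  classical
  have hrat : ∀ (lam : ℝ) (ω : Ω), (fun x : ℕ => (num A ω x ⌊lam * Real.log x ^ 2⌋₊ : ℝ) / (lam * Real.log x)) =
      Pool.Agent.N740.HK.rat A lam ω := by
    intro lam ω
    funext x
    rw [num_eq]
    rfl
  refine ⟨?_, ?_⟩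
  · rintro ⟨h1, h2, h3⟩
    have hs : Pool.Agent.N740.HK.HS μ ℱ A := ⟨h1, h2, fun n hn => by
      filter_upwards [h3 n hn] with ω hω
      rw [← prod_inv]
      exact hω⟩
    exact ⟨h1, Pool.Agent.N740.HK.hawk_dens hs⟩
  · rintro ⟨hA, hd⟩
    have h3 : ∀ δ : ℝ, 0 < δ → ∃ K : ℝ, 0 < K ∧ ∀ᵐ ω ∂μ, ∀ᶠ x : ℕ in atTop, ∀ H : ℕ,
        K * Real.log x ^ 2 ≤ H → H ≤ x → |(num A ω x H : ℝ) * Real.log x / H - 1| ≤ δ := by
      intro δ hδ
      obtain ⟨K, hK, h⟩ := Pool.Agent.N740.HK.short (μ := μ) hA hd hδ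
      refine ⟨K, hK, ?_⟩
      filter_upwards [h] with ω hω
      filter_upwards [hω, Pool.Agent.N740.HK.tendsto_logN.eventually_gt_atTop 0] with x hx hL H hH1 hH2
      have h0 : (0 : ℝ) < H := lt_of_lt_of_le (by positivity) hH1
      have h1 := hx H hH1 hH2
      rw [num_eq]
      have e : (Pool.Agent.R528.RM.cnt A x H ω : ℝ) * Real.log x / H - 1 =
          ((Pool.Agent.R528.RM.cnt A x H ω : ℝ) - H / Real.log x) * (Real.log x / H) := by
        field_simp
      rw [e, abs_mul, abs_of_pos (by positivity : 0 < Real.log x / H)]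
      refine (mul_le_mul_of_nonneg_right h1 (by positivity)).trans (le_of_eq ?_)
      field_simp
    have h3' : ∀ᵐ ω ∂μ, ∀ n : ℕ, ∃ K : ℝ, 0 < K ∧ ∀ᶠ x : ℕ in atTop, ∀ H : ℕ,
        K * Real.log x ^ 2 ≤ H → H ≤ x → |(num A ω x H : ℝ) * Real.log x / H - 1| ≤ 1 / ((n : ℝ) + 1) := by
      rw [ae_all_iff]
      intro n
      obtain ⟨K, hK, h⟩ := h3 (1 / ((n : ℝ) + 1)) (by positivity)
      filter_upwards [h] with ω hω
      exact ⟨K, hK, hω⟩
    refine ⟨?_, ?_, h3, ?_, ?_, ?_⟩
    · filter_upwards [h3'] with ω hω ε δ hε hδ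
      obtain ⟨n, hn⟩ := exists_nat_one_div_lt hδ
      obtain ⟨K, hK, h⟩ := hω n
      have h4 : ∀ᶠ x : ℕ in atTop, K * Real.log x ^ 2 ≤ (x : ℝ) ^ ε := by
        have h5 := (isLittleO_log_rpow_rpow_atTop (2 : ℝ) hε).bound (show (0 : ℝ) < 1 / K by positivity)
        filter_upwards [tendsto_natCast_atTop_atTop.eventually h5, eventually_ge_atTop 1] with x h6 hx1
        have hx : (1 : ℝ) ≤ x := by exact_mod_cast hx1
        have hL : 0 ≤ Real.log x := Real.log_nonneg hx
        rw [Real.norm_eq_abs, Real.norm_eq_abs, abs_of_nonneg (Real.rpow_nonneg hL _),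
          abs_of_nonneg (Real.rpow_nonneg (by linarith) _), show (2 : ℝ) = ((2 : ℕ) : ℝ) by norm_num,
          Real.rpow_natCast] at h6
        have h7 := mul_le_mul_of_nonneg_left h6 hK.le
        refine h7.trans (le_of_eq ?_)
        field_simp
      filter_upwards [h, h4] with x hx hx4 H hH1 hH2
      exact (hx H (hx4.trans hH1) hH2).trans hn.le
    · filter_upwards [h3'] with ω hω H hH1 hH2
      rw [Metric.tendsto_atTop']
      intro δ hδ
      obtain ⟨n, hn⟩ := exists_nat_one_div_lt hδ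
      obtain ⟨K, hK, h⟩ := hω n
      have h5 : ∀ᶠ x : ℕ in atTop, dist ((num A ω x (H x) : ℝ) * Real.log x / H x) 1 < δ := by
        filter_upwards [h, hH1, hH2.eventually_ge_atTop K, Pool.Agent.N740.HK.tendsto_logN.eventually_gt_atTop 0]
          with x hx h1 h2 hL
        rw [Real.dist_eq]
        rw [le_div_iff₀ (by positivity)] at h2
        exact (hx (H x) h2 h1).trans_lt hn
      obtain ⟨N, hN⟩ := eventually_atTop.1 h5
      exact ⟨N, fun x hx => hN x hx.le⟩
    · intro s lam hs hI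
      filter_upwards [Pool.Agent.N740.HK.limsup_law (μ := μ) hA hd hs hI] with ω hω
      rw [hrat]
      exact hω
    · intro s lam hs0 hs hI
      filter_upwards [Pool.Agent.N740.HK.liminf_law (μ := μ) hA hd hs0 hs hI] with ω hω
      rw [hrat]
      exact hω
    · intro lam h0 h1
      filter_upwards [Pool.Agent.N740.HK.liminf_zero (μ := μ) hA hd h0 h1] with ω hω
      rw [hrat]
      exact hω
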