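import Mathlib
import Pool.Agent.TH110.Zig.Primes
import Pool.Agent.N744.Zig.LawU

/-!
# Exact law of the oscillations of the local density of the primes

Let `x` be uniformly distributed in `[0, N]` and let `s` be the first `s > x` such that the density of
the primes in `(x, s]` is at least `b / log N`, `b > 1`. Then follow the line of slope `a / log N`,
`0 < a < 1`, from the point `(s, b (s - x) / log N)` until, at `t`, the number of the primes in `(x, t]`
is again not above this line: this is a zigzag from `x` to `t`. Then start again from `t`, with the same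
or with other slopes.

The theorem is the law of these oscillations of the primes, at all scales between `0` and `N` and for
all slopes `≥ 1 + δ` and `≤ 1 - δ` at once: for every measurable subset `A` of `[0, N]`, the measure of
the starting points of the zigzags with slopes `(b i, a i)` that end in `A` is equal to
`|A| ∏ a i / b i` up to `ε N` (and never larger); and for every set `P` of primes `≤ N`, the measure of
the starting points `x` whose zigzags are followed by a first passage over the slope `b / log N` at a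
prime of `P` is equal to `|P| (log N / b) ∏ a i / b i` up to `ε N` (and never larger). So the number of
zigzags with slopes `b`, `a` before `N` is asymptotically geometric with ratio `a / b` and has mean
value `a / (b - a)`, the `k`-th zigzag, if it exists, ends at a uniformly distributed point, and the
primes of first passage are uniformly distributed among the primes `≤ N`.
-/

set_option autoImplicit false

open MeasureTheory Set Filter Topology

namespace Pool.Agent.Results.MP_31d0eb_nt.ZigzagLaw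

/-- the number of primes `≤ x` -/
noncomputable def primesUpTo (x : ℝ) : ℝ := (Nat.primeCounting ⌊x⌋₊ : ℝ)

/-- `s` is the first `s > x` for which the number of primes in `(x, s]` is at least
`b (s - x) / l` -/
def Rise (l b x s : ℝ) : Prop :=
  IsLeast {s | x < s ∧ b / l * (s - x) ≤ primesUpTo s - primesUpTo x} s

/-- `s` is the first `s > x` for which the number of primes in `(x, s]` is at least `b (s - x) / l`, and
`t` is the first `t ≥ s` for which the number of primes in `(x, t]` is at most
`b (s - x) / l + a (t - s) / l` -/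
def Zigzag (l b a x t : ℝ) : Prop :=
  ∃ s : ℝ, Rise l b x s ∧
    IsLeast {t | s ≤ t ∧ primesUpTo t - primesUpTo x ≤ b / l * (s - x) + a / l * (t - s)} t

/-- successive zigzags from `x` to `t`, with the slopes `(b, a)` of a list -/
def Path (l : ℝ) : List (ℝ × ℝ) → ℝ → ℝ → Prop
  | [], x, t => x = t
  | c :: cs, x, t => ∃ u, Zigzag l c.1 c.2 x u ∧ Path l cs u t

/-- the product of the `a / b` -/
noncomputable def ratio (cs : List (ℝ × ℝ)) : ℝ := (cs.map fun c => c.2 / c.1).prod

theorem path_iff (l : ℝ) (cs : List (ℝ × ℝ)) :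
    ∀ x t : ℝ, Path l cs x t ↔ TH110.Zig.Path (TH110.Zig.cr TH110.Zig.qp) l cs x t := by
  rw [TH110.Zig.cr_qp]
  induction cs with
  | nil => exact fun x t => Iff.rfl
  | cons c cs ih =>
    intro x t
    constructor
    · rintro ⟨u, h1, h2⟩
      exact ⟨u, h1, (ih u t).mp h2⟩
    · rintro ⟨u, h1, h2⟩
      exact ⟨u, h1, (ih u t).mpr h2⟩

theorem rise_iff (l b x s : ℝ) :
    Rise l b x s ↔ N744.Zig.Rise (TH110.Zig.cr TH110.Zig.qp) (b / l) x s := by
  rw [TH110.Zig.cr_qp]
  exact Iff.rfl

theorem qp_count {p : ℕ} (hp : p.Prime) : TH110.Zig.qp (Nat.count Nat.Prime p) = p := by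
  unfold TH110.Zig.qp
  rw [Nat.nth_count hp]

theorem law (δ ε : ℝ) (hδ : 0 < δ) (hε : 0 < ε) : ∀ᶠ N : ℝ in atTop,
    ∀ cs : List (ℝ × ℝ), (∀ c ∈ cs, 1 + δ ≤ c.1 ∧ 0 < c.2 ∧ c.2 ≤ 1 - δ) →
      (∀ A : Set ℝ, A ⊆ Icc 0 N → MeasurableSet A →
        volume.real {x | 0 ≤ x ∧ ∃ t ∈ A, Path (Real.log N) cs x t} ∈
          Icc (ratio cs * volume.real A - ε * N) (ratio cs * volume.real A)) ∧
      ∀ b : ℝ, 1 + δ ≤ b → ∀ P : Finset ℕ, (∀ p ∈ P, p.Prime ∧ (p : ℝ) ≤ N) →
        volume.real {x | 0 ≤ x ∧ ∃ t, Path (Real.log N) cs x t ∧ ∃ p ∈ P,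
          Rise (Real.log N) b t p} ∈
          Icc (ratio cs * (Real.log N / b * P.card) - ε * N)
            (ratio cs * (Real.log N / b * P.card)) := by
  have hδ0 : 0 < min δ 1 := lt_min hδ one_pos
  have hδ1 : min δ 1 ≤ 1 := min_le_right _ _
  have hδ2 : min δ 1 ≤ δ := min_le_left _ _
  filter_upwards [N744.Zig.law_u TH110.Zig.reg_qp hδ0 hδ1 hε,
    N744.Zig.law_rise_u TH110.Zig.reg_qp hδ0 hδ1 hε] with N h1 h2 cs hcs
  have hcs' : ∀ c ∈ cs, 1 + min δ 1 ≤ c.1 ∧ 0 < c.2 ∧ c.2 ≤ 1 - min δ 1 := by
    intro c hc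
    obtain ⟨h3, h4, h5⟩ := hcs c hc
    exact ⟨by linarith, h4, by linarith⟩
  constructor
  · intro A hAN hA
    obtain ⟨-, -, h3, h4⟩ := h1 cs hcs' A hAN hA
    have e : {x | 0 ≤ x ∧ ∃ t ∈ A, Path (Real.log N) cs x t} =
        TH110.Zig.DomL TH110.Zig.qp (Real.log N) cs A := by
      ext x
      simp only [TH110.Zig.DomL, mem_ofPred_eq, path_iff]
    rw [e]
    exact ⟨h4, h3⟩
  · intro b hb P hP
    classical
    set I : Finset ℕ := P.image (Nat.count Nat.Prime) with hI
    have hcard : I.card = P.card := by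
      rw [hI]
      apply Finset.card_image_of_injOn
      intro p hp p' hp' h
      have h3 := qp_count (hP p hp).1
      have h4 := qp_count (hP p' hp').1
      rw [h] at h3
      have h5 : (p : ℝ) = p' := h3.symm.trans h4
      exact_mod_cast h5
    have hIN : ∀ i ∈ I, TH110.Zig.qp i ≤ N := by
      intro i hi
      obtain ⟨p, hp, rfl⟩ := Finset.mem_image.mp hi
      rw [qp_count (hP p hp).1]
      exact (hP p hp).2
    obtain ⟨h3, h4⟩ := h2 cs hcs' b (by linarith) I hIN
    have e : {x | 0 ≤ x ∧ ∃ t, Path (Real.log N) cs x t ∧ ∃ p ∈ P, Rise (Real.log N) b t p} =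
        {x | 0 ≤ x ∧ ∃ t, TH110.Zig.Path (TH110.Zig.cr TH110.Zig.qp) (Real.log N) cs x t ∧
          ∃ i ∈ I, N744.Zig.Rise (TH110.Zig.cr TH110.Zig.qp) (b / Real.log N) t
            (TH110.Zig.qp i)} := by
      ext x
      simp only [mem_ofPred_eq, path_iff, rise_iff]
      constructor
      · rintro ⟨h0, t, h5, p, hp, h6⟩
        refine ⟨h0, t, h5, _, Finset.mem_image_of_mem _ hp, ?_⟩
        rw [qp_count (hP p hp).1]
        exact h6
      · rintro ⟨h0, t, h5, i, hi, h6⟩
        obtain ⟨p, hp, rfl⟩ := Finset.mem_image.mp hi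
        rw [qp_count (hP p hp).1] at h6
        exact ⟨h0, t, h5, p, hp, h6⟩
    rw [e, ← hcard]
    exact ⟨h4, h3⟩

/-- **The law of the oscillations of the density of the primes.** The first part is the exact law,
uniform in the list `cs` of the slopes, in the measurable set `A ⊆ [0, N]` and in the set `P` of primes
`≤ N`. The second part: the mean value over `x ≤ N` of the number of zigzags with the slopes `b`, `a`
from `x` before `N` (the sum over `k` of the proportion of those `x` that have at least `k + 1`) tends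
to `a / (b - a)`. -/
theorem result :
    (∀ δ ε : ℝ, 0 < δ → 0 < ε → ∀ᶠ N : ℝ in atTop,
      ∀ cs : List (ℝ × ℝ), (∀ c ∈ cs, 1 + δ ≤ c.1 ∧ 0 < c.2 ∧ c.2 ≤ 1 - δ) →
        (∀ A : Set ℝ, A ⊆ Icc 0 N → MeasurableSet A →
          volume.real {x | 0 ≤ x ∧ ∃ t ∈ A, Path (Real.log N) cs x t} ∈
            Icc (ratio cs * volume.real A - ε * N) (ratio cs * volume.real A)) ∧
        ∀ b : ℝ, 1 + δ ≤ b → ∀ P : Finset ℕ, (∀ p ∈ P, p.Prime ∧ (p : ℝ) ≤ N) →
          volume.real {x | 0 ≤ x ∧ ∃ t, Path (Real.log N) cs x t ∧ ∃ p ∈ P,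
            Rise (Real.log N) b t p} ∈
            Icc (ratio cs * (Real.log N / b * P.card) - ε * N)
              (ratio cs * (Real.log N / b * P.card))) ∧
    ∀ a b : ℝ, 0 < a → a < 1 → 1 < b →
      Tendsto (fun N : ℝ => ∑' k : ℕ, volume.real {x | 0 ≤ x ∧ ∃ t ∈ Icc 0 N,
        Path (Real.log N) (List.replicate (k + 1) (b, a)) x t} / N) atTop (𝓝 (a / (b - a))) := by
  refine ⟨fun δ ε hδ hε => law δ ε hδ hε, ?_⟩
  intro a b ha ha1 hb
  have hb0 : 0 < b := by linarith
  set δ : ℝ := min (1 - a) (b - 1) with hδ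
  have hδ0 : 0 < δ := lt_min (by linarith) (by linarith)
  have hδa : δ ≤ 1 - a := min_le_left _ _
  have hδb : δ ≤ b - 1 := min_le_right _ _
  have hr0 : 0 ≤ a / b := by positivity
  have hr1 : a / b < 1 := by rw [div_lt_one hb0]; linarith
  have hrat : ∀ k : ℕ, ratio (List.replicate k (b, a)) = (a / b) ^ k := by
    intro k
    simp [ratio]
  have hcs : ∀ k : ℕ, ∀ c ∈ List.replicate k (b, a), 1 + δ ≤ c.1 ∧ 0 < c.2 ∧ c.2 ≤ 1 - δ := by
    intro k c hc
    rw [List.eq_of_mem_replicate hc]
    exact ⟨by simp only; linarith, ha, by simp only; linarith⟩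
  have hsum : a / (b - a) = ∑' k : ℕ, (a / b) ^ (k + 1) := by
    have h1 := tsum_geometric_of_lt_one hr0 hr1
    have h2 : ∑' k : ℕ, (a / b) ^ (k + 1) = a / b * ∑' k : ℕ, (a / b) ^ k := by
      rw [← tsum_mul_left]
      exact tsum_congr fun k => by ring
    rw [h2, h1]
    have h3 : b - a ≠ 0 := by linarith
    field_simp
  rw [hsum]
  apply tendsto_tsum_of_dominated_convergence (bound := fun k : ℕ => (a / b) ^ (k + 1))
  · have := (summable_geometric_of_lt_one hr0 hr1).mul_left (a / b)
    refine this.congr fun k => by ring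
  · intro k
    rw [Metric.tendsto_nhds]
    intro ε hε
    filter_upwards [law δ (ε / 2) hδ0 (by positivity), eventually_gt_atTop 0] with N h1 hN
    obtain ⟨h2, h3⟩ := (h1 _ (hcs (k + 1))).1 (Icc 0 N) subset_rfl measurableSet_Icc
    have hv : volume.real (Icc 0 N) = N := by
      rw [Real.volume_real_Icc, sub_zero, max_eq_left hN.le]
    rw [hrat, hv] at h2 h3
    rw [Real.dist_eq, abs_lt]
    have h4 : (a / b) ^ (k + 1) - ε / 2 ≤ volume.real {x | 0 ≤ x ∧ ∃ t ∈ Icc 0 N,
        Path (Real.log N) (List.replicate (k + 1) (b, a)) x t} / N := by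
      rw [le_div_iff₀ hN]; linarith
    have h5 : volume.real {x | 0 ≤ x ∧ ∃ t ∈ Icc 0 N,
        Path (Real.log N) (List.replicate (k + 1) (b, a)) x t} / N ≤ (a / b) ^ (k + 1) := by
      rw [div_le_iff₀ hN]; linarith
    constructor <;> linarith
  · filter_upwards [law δ 1 hδ0 one_pos, eventually_gt_atTop 0] with N h1 hN k
    obtain ⟨-, h3⟩ := (h1 _ (hcs (k + 1))).1 (Icc 0 N) subset_rfl measurableSet_Icc
    have hv : volume.real (Icc 0 N) = N := by
      rw [Real.volume_real_Icc, sub_zero, max_eq_left hN.le]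
    rw [hrat, hv] at h3
    rw [Real.norm_eq_abs, abs_of_nonneg (by positivity), div_le_iff₀ hN]
    exact h3

end Pool.Agent.Results.MP_31d0eb_nt.ZigzagLaw
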